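import Mathlib
import Pool.Agent.Helper97.HR.Map

/-!
# The Hilbert property of fibre powers of elliptic surfaces and rank jumps

Let `𝓔 : y² = x³ + a(t) x + b(t)` be an elliptic curve over `k(t)`, `k` of characteristic zero, and
let `X` be any model of the `n`-fold fibre power of `𝓔` over the `t`-line. If `𝓔` has a section of
infinite order then the rational points of `X` are dense. If `X` has the Hilbert property then for
all `t` in `k` outside thin sets the ranks of the fibres jump by `n`.
-/

set_option autoImplicit false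

open AlgebraicGeometry CategoryTheory Polynomial
open scoped Classical

namespace Pool.Agent.Results.MP_87f965_ag.FibrePowerRanks

/-- The embedding of `k` into the function field of an integral `k`-scheme. -/
noncomputable def toFF (k : Type) [Field k] (X : Scheme.{0}) [IsIntegral X]
    (f : X ⟶ Spec (CommRingCat.of k)) : k →+* X.functionField :=
  ((X.presheaf.germ ⊤ (genericPoint X) trivial).hom.comp f.appTop.hom).comp
    (Scheme.ΓSpecIso (CommRingCat.of k)).inv.hom

/-- The Hilbert property of the `k`-scheme `X` (structure morphism `f`): for every finite family of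
covers `π i : Y i ⟶ X` (finite surjective, `Y i` integral) of degree `> 1` (the extension of
function fields is not trivial) the `k`-points of `X` which are not images of `k`-points of the
`Y i` are dense in `X`. -/
def HilbertProperty (k : Type) [Field k] (X : Scheme.{0}) (f : X ⟶ Spec (CommRingCat.of k)) :
    Prop :=
  ∀ (q : ℕ) (Y : Fin q → Scheme.{0}) (π : ∀ i, Y i ⟶ X) (_ : ∀ i, IsIntegral (Y i)),
    (∀ i, IsFinite (π i)) → (∀ i, Surjective (π i)) →
    (∀ i, ¬ Function.Surjective ((π i).stalkMap (genericPoint (Y i))).hom) →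
    Dense {x : X | ∃ s : Spec (CommRingCat.of k) ⟶ X, s ≫ f = 𝟙 _ ∧ x ∈ Set.range s.base ∧
      ∀ i (t : Spec (CommRingCat.of k) ⟶ Y i), t ≫ π i ≠ s}

/-- The `k`-points of the `k`-scheme `X` are dense in `X`. -/
def DensePoints (k : Type) [Field k] (X : Scheme.{0}) (f : X ⟶ Spec (CommRingCat.of k)) : Prop :=
  Dense {x : X | ∃ s : Spec (CommRingCat.of k) ⟶ X, s ≫ f = 𝟙 _ ∧ x ∈ Set.range s.base}

/-- The curve `y² = x³ + a x + b`. -/
def curve {F : Type} [Field F] (a b : F) : WeierstrassCurve.Affine F := ⟨0, 0, 0, a, b⟩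

/-- The curve `𝓔 : y² = x³ + a(t) x + b(t)` over `k(t)`. -/
noncomputable def generic {k : Type} [Field k] (a b : k[X]) :
    WeierstrassCurve.Affine (RatFunc k) :=
  curve (algebraMap k[X] (RatFunc k) a) (algebraMap k[X] (RatFunc k) b)

/-- Thin subsets of the affine line `k`: there are finitely many polynomials `H j` in `k[t][T]`
without roots in `k(t)` such that for each `z` in the set some `H j (z, T)` has a root in `k`. -/
def Thin (k : Type) [Field k] (Z : Set k) : Prop :=
  ∃ (q : ℕ) (H : Fin q → k[X][X]),
    (∀ (j : Fin q) (r : RatFunc k), (H j).eval₂ (algebraMap k[X] (RatFunc k)) r ≠ 0) ∧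
    ∀ z ∈ Z, ∃ (j : Fin q) (c : k), ((H j).map (evalRingHom z)).eval c = 0

/-- The function field of `X` is that of the `n`-fold fibre power of
`𝓔 : y² = x³ + a(t) x + b(t)` over the `t`-line: it is generated over `k` by `t`, which is
transcendental over `k`, by `x i`, `i < n`, which are algebraically independent over `k(t)`,
and by `y i` with `(y i)² = (x i)³ + a(t) x i + b(t)`. -/
def IsFibrePower (k : Type) [Field k] (X : Scheme.{0}) [IsIntegral X]
    (f : X ⟶ Spec (CommRingCat.of k)) (a b : k[X]) (n : ℕ) : Prop :=
  letI : Algebra k X.functionField := (toFF k X f).toAlgebra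
  ∃ (t : X.functionField) (x y : Fin n → X.functionField),
    Transcendental k t ∧ AlgebraicIndependent (IntermediateField.adjoin k {t}) x ∧
    (∀ i, y i ^ 2 = x i ^ 3 + aeval t a * x i + aeval t b) ∧
    IntermediateField.adjoin k ({t} ∪ (Set.range x ∪ Set.range y)) = ⊤

/-- Let `k` be a field of characteristic zero, `𝓔 : y² = x³ + a(t) x + b(t)` an elliptic curve over
`k(t)`, `n` a natural number and `X` an integral `k`-scheme locally of finite type with the
function field of the `n`-fold fibre power of `𝓔` over the `t`-line.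
If `𝓔(k(t))` has a point of infinite order, the `k`-points of `X` are dense.
If `X` has the Hilbert property, `S 1, …, S s` are sections of `𝓔` independent modulo `2 𝓔(k(t))`,
`𝓔(k(t))` has at most `2 ^ τ` points of order dividing two and `m + τ ≤ n + s`, then the set of all
`t` in `k` such that the fibre `𝓔_t` is an elliptic curve and has `m` independent `k`-points is not
thin. -/
theorem result : ∀ (k : Type) [Field k] [CharZero k] (X : Scheme.{0}) [IsIntegral X]
    (f : X ⟶ Spec (CommRingCat.of k)) [LocallyOfFiniteType f] (a b : k[X]) (n : ℕ),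
    4 * a ^ 3 + 27 * b ^ 2 ≠ 0 → IsFibrePower k X f a b n →
    ((∃ Q : (generic a b).Point, ∀ m : ℕ, 0 < m → m • Q ≠ 0) → DensePoints k X f) ∧
    (HilbertProperty k X f →
      ∀ (s : ℕ) (S : Fin s → (generic a b).Point),
        (∀ μ : Finset (Fin s), μ.Nonempty → ∀ R : (generic a b).Point,
          ∑ j ∈ μ, S j ≠ R + R) →
      ∀ τ : ℕ, {T : (generic a b).Point | T + T = 0}.ncard ≤ 2 ^ τ →
      ∀ m : ℕ, m + τ ≤ n + s →
      ¬ Thin k {t : k | 4 * a.eval t ^ 3 + 27 * b.eval t ^ 2 ≠ 0 ∧
        ∃ P : Fin m → (curve (a.eval t) (b.eval t)).Point, LinearIndependent ℤ P}) := by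
  intro k _ _ X _ f _ a b n hd hX
  let A0 : Algebra k X.functionField := (toFF k X f).toAlgebra
  obtain ⟨t, x, y, ht, hx, hy, htop⟩ := hX
  have hchar : CharZero X.functionField :=
    charZero_of_injective_algebraMap (algebraMap k X.functionField).injective
  obtain ⟨l, hl, hF⟩ := Helper97.HR.rat_embed ht
  have hcharR : CharZero (RatFunc k) := inferInstance
  set aR : RatFunc k := algebraMap k[X] (RatFunc k) a with haR
  set bR : RatFunc k := algebraMap k[X] (RatFunc k) b with hbR
  have hdR : Helper97.HR.dsc aR bR ≠ 0 := by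
    have h1 : Helper97.HR.dsc aR bR = algebraMap k[X] (RatFunc k) (4 * a ^ 3 + 27 * b ^ 2) := by
      rw [haR, hbR, Helper97.HR.dsc_map]
      rfl
    rw [h1]
    rwa [Ne, map_eq_zero_iff _ (IsFractionRing.injective k[X] (RatFunc k))]
  have hdK := Helper97.HR.map_dsc l hdR
  have haK : l aR = aeval t a := hl a
  have hbK : l bR = aeval t b := hl b
  have hx' : AlgebraicIndependent (IntermediateField.adjoin k {t}).toSubfield x := hx
  have hy' : ∀ i, y i ^ 2 = x i ^ 3 + l aR * x i + l bR := by
    intro i
    rw [haK, hbK]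
    exact hy i
  have haF : l aR ∈ (IntermediateField.adjoin k {t}).toSubfield := by
    rw [← hF]
    exact ⟨aR, rfl⟩
  have hbF : l bR ∈ (IntermediateField.adjoin k {t}).toSubfield := by
    rw [← hF]
    exact ⟨bR, rfl⟩
  have htop' : Helper97.HR.EE (IntermediateField.adjoin k {t}).toSubfield x y Set.univ = ⊤ := by
    rw [eq_top_iff]
    intro w _
    have hw : w ∈ (IntermediateField.adjoin k ({t} ∪ (Set.range x ∪ Set.range y))).toSubfield := by
      rw [htop]
      trivial
    have h3 : (IntermediateField.adjoin k ({t} ∪ (Set.range x ∪ Set.range y))).toSubfield ≤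
        Helper97.HR.EE (IntermediateField.adjoin k {t}).toSubfield x y Set.univ := by
      have h4 : (IntermediateField.adjoin k ({t} ∪ (Set.range x ∪ Set.range y))).toSubfield =
        Subfield.closure (Set.range (algebraMap k X.functionField) ∪
          ({t} ∪ (Set.range x ∪ Set.range y))) := rfl
      rw [h4, Subfield.closure_le]
      have hFM := Helper97.HR.F_le (IntermediateField.adjoin k {t}).toSubfield x y Set.univ
      rintro v (⟨c, rfl⟩ | rfl | ⟨i, rfl⟩ | ⟨i, rfl⟩)
      · exact hFM ((IntermediateField.adjoin k {t}).algebraMap_mem c)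
      · exact hFM (IntermediateField.mem_adjoin_simple_self k v)
      · exact Helper97.HR.x_mem _ x y (Set.mem_univ i)
      · exact Helper97.HR.y_mem _ x y (Set.mem_univ i)
    exact h3 hw
  have part1 : ∀ Q : (Helper97.HR.cv aR bR).Point, (∀ m : ℕ, 0 < m → m • Q ≠ 0) →
      DensePoints k X f := by
    intro Q hQ
    refine Helper97.HR.dense_of_dpf f (RingEquiv.refl _) (fun _ => rfl) ?_
    apply Helper97.HR.dpf_of_dp
    have ht₀ : Transcendental (algebraMap k X.functionField).fieldRange t :=
      Helper97.HR.trans_subfield _ (fun z hz => hz) ht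
    have hinf : Infinite (algebraMap k X.functionField).fieldRange := by
      have : CharZero (algebraMap k X.functionField).fieldRange := inferInstance
      infer_instance
    have hline := Helper97.HR.dp_line (algebraMap k X.functionField).fieldRange ht₀
    rw [Helper97.HR.adj_range] at hline
    have key := Helper97.HR.dp_power hdK hx' haF hbF hy' (Helper97.HR.mph l hdR Q)
      (by rw [← hF]; exact Helper97.HR.mph_HC l hdR Q)
      (fun j hj h0 => hQ j hj (by
        apply Helper97.HR.mph_inj l hdR
        rw [map_nsmul, map_zero]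
        exact h0)) Finset.univ
    rw [Finset.coe_univ, htop'] at key
    exact hline.trans key
  have part2 : HilbertProperty k X f →
      ∀ (s : ℕ) (S : Fin s → (Helper97.HR.cv aR bR).Point),
        (∀ μ : Finset (Fin s), μ.Nonempty → ∀ R : (Helper97.HR.cv aR bR).Point,
          ∑ j ∈ μ, S j ≠ R + R) →
      ∀ τ : ℕ, {T : (Helper97.HR.cv aR bR).Point | T + T = 0}.ncard ≤ 2 ^ τ →
      ∀ m : ℕ, m + τ ≤ n + s →
      ¬ Thin k {t : k | 4 * a.eval t ^ 3 + 27 * b.eval t ^ 2 ≠ 0 ∧
        ∃ P : Fin m → (curve (a.eval t) (b.eval t)).Point, LinearIndependent ℤ P} := by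
    rintro hHP s S hS τ hτ m hm ⟨q, H, hH, hZ⟩
    have hHPF : Helper97.HR.HPF k X.functionField :=
      Helper97.HR.hpf_of_hp f hHP (RingEquiv.refl _) (fun _ => rfl)
    obtain ⟨t₀, h1, h2, h3⟩ := Helper97.HR.rank_of_hpf' haK hbK hHPF
      (IntermediateField.adjoin k {t}).toSubfield rfl hdK hx' hy' htop'
      (fun j => Helper97.HR.mph l hdR (S j))
      (fun j => by rw [← hF]; exact Helper97.HR.mph_HC l hdR (S j))
      (fun μ hμ R hR h0 => by
        rw [← hF] at hR
        obtain ⟨R', rfl⟩ := Helper97.HR.mph_surj l hdR R hR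
        rw [← map_sum, ← map_add] at h0
        exact hS μ hμ R' (Helper97.HR.mph_inj l hdR h0)) τ
      (le_trans (by
        have hfin : {T : (Helper97.HR.cv aR bR).Point | T + T = 0}.Finite :=
          Helper97.HR.tors_finite hdR
        have hsub : {P : (Helper97.HR.cv (l aR) (l bR)).Point |
            Helper97.HR.HC (IntermediateField.adjoin k {t}).toSubfield P ∧ P + P = 0} ⊆
            (Helper97.HR.mph l hdR) '' {T : (Helper97.HR.cv aR bR).Point | T + T = 0} := by
          rintro P ⟨hP1, hP2⟩
          rw [← hF] at hP1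
          obtain ⟨P', rfl⟩ := Helper97.HR.mph_surj l hdR P hP1
          refine ⟨P', ?_, rfl⟩
          apply Helper97.HR.mph_inj l hdR
          rw [map_add, map_zero]
          exact hP2
        exact (Set.ncard_le_ncard hsub (hfin.image _)).trans (Set.ncard_image_le hfin)) hτ)
      q H (fun j r hr h0 => by
        rw [← hF] at hr
        obtain ⟨r', rfl⟩ := hr
        apply hH j r'
        apply l.injective
        rw [map_zero, ← h0, Polynomial.hom_eval₂]
        congr 1
        ext p
        · exact hl (C p)
        · exact hl Polynomial.X) m hm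
    obtain ⟨j, c, hc⟩ := hZ t₀ ⟨h1, h3⟩
    exact h2 j c hc
  exact ⟨fun ⟨Q, hQ⟩ => part1 Q hQ, part2⟩

end Pool.Agent.Results.MP_87f965_ag.FibrePowerRanks
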