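import Mathlib
import Pool.Agent.Helper97.HR.Map

/-!
# The Hilbert property of Kummer varieties and ranks of quadratic twists

Let `E : y² = x³ + a x + b` be an elliptic curve over a field `k` of characteristic zero and let `X`
be any model of the Kummer variety `Eⁿ/±1`. The rational points of `X` are dense, and if `X` has the
Hilbert property then the quadratic twists of `E` with at least `n` independent rational points are
not contained in a thin family; in particular there are such twists outside any finite set of
square classes.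
-/

set_option autoImplicit false

open AlgebraicGeometry CategoryTheory Polynomial
open scoped Classical

namespace Pool.Agent.Results.MP_87f965_ag.KummerTwistRanks

/-- The embedding of `k` into the function field of an integral `k`-scheme. -/
noncomputable def toFF (k : Type) [Field k] (X : Scheme.{0}) [IsIntegral X]
    (f : X ⟶ Spec (CommRingCat.of k)) : k →+* X.functionField :=
  ((X.presheaf.germ ⊤ (genericPoint X) trivial).hom.comp f.appTop.hom).comp
    (Scheme.ΓSpecIso (CommRingCat.of k)).inv.hom

/-- The Hilbert property of the `k`-scheme `X` (structure morphism `f`): for every finite family of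
covers `π i : Y i ⟶ X` (finite surjective, `Y i` integral) of degree `> 1` (the extension of
function fields is not trivial) the `k`-points of `X` which are not images of `k`-points of the
`Y i` are dense in `X`. -/
def HilbertProperty (k : Type) [Field k] (X : Scheme.{0}) (f : X ⟶ Spec (CommRingCat.of k)) :
    Prop :=
  ∀ (q : ℕ) (Y : Fin q → Scheme.{0}) (π : ∀ i, Y i ⟶ X) (_ : ∀ i, IsIntegral (Y i)),
    (∀ i, IsFinite (π i)) → (∀ i, Surjective (π i)) →
    (∀ i, ¬ Function.Surjective ((π i).stalkMap (genericPoint (Y i))).hom) →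
    Dense {x : X | ∃ s : Spec (CommRingCat.of k) ⟶ X, s ≫ f = 𝟙 _ ∧ x ∈ Set.range s.base ∧
      ∀ i (t : Spec (CommRingCat.of k) ⟶ Y i), t ≫ π i ≠ s}

/-- The `k`-points of the `k`-scheme `X` are dense in `X`. -/
def DensePoints (k : Type) [Field k] (X : Scheme.{0}) (f : X ⟶ Spec (CommRingCat.of k)) : Prop :=
  Dense {x : X | ∃ s : Spec (CommRingCat.of k) ⟶ X, s ≫ f = 𝟙 _ ∧ x ∈ Set.range s.base}

/-- The curve `y² = x³ + a x + b`. -/
def curve {F : Type} [Field F] (a b : F) : WeierstrassCurve.Affine F := ⟨0, 0, 0, a, b⟩

/-- Thin subsets of the affine line `k`: there are finitely many polynomials `H j` in `k[t][T]`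
without roots in `k(t)` such that for each `z` in the set some `H j (z, T)` has a root in `k`. -/
def Thin (k : Type) [Field k] (Z : Set k) : Prop :=
  ∃ (q : ℕ) (H : Fin q → k[X][X]),
    (∀ (j : Fin q) (r : RatFunc k), (H j).eval₂ (algebraMap k[X] (RatFunc k)) r ≠ 0) ∧
    ∀ z ∈ Z, ∃ (j : Fin q) (c : k), ((H j).map (evalRingHom z)).eval c = 0

/-- The function field of `X` is that of the Kummer variety `Eⁿ/±1`, `n = m + 1`, where
`E : y² = x³ + a x + b`: it is generated over `k` by algebraically independent `x 0, …, x m` and by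
`z i = y 0 * y (i + 1)`, where `(y j)² = (x j)³ + a x j + b`. -/
def IsKummerPower (k : Type) [Field k] (X : Scheme.{0}) [IsIntegral X]
    (f : X ⟶ Spec (CommRingCat.of k)) (a b : k) (m : ℕ) : Prop :=
  letI : Algebra k X.functionField := (toFF k X f).toAlgebra
  ∃ (x : Fin (m + 1) → X.functionField) (z : Fin m → X.functionField),
    AlgebraicIndependent k x ∧
    (∀ i, z i ^ 2 = (x 0 ^ 3 + toFF k X f a * x 0 + toFF k X f b) *
      (x i.succ ^ 3 + toFF k X f a * x i.succ + toFF k X f b)) ∧
    IntermediateField.adjoin k (Set.range x ∪ Set.range z) = ⊤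

/-- Let `k` be a field of characteristic zero, `E : y² = x³ + a x + b` an elliptic curve over `k`,
`n = m + 1` and `X` an integral `k`-scheme locally of finite type with the function field of
`Eⁿ/±1`. Then the `k`-points of `X` are dense, and if `X` has the Hilbert property, the set of all
`t` in `k` such that the quadratic twist of `E` by `d = t³ + a t + b ≠ 0` has `n` independent
`k`-points is not thin; moreover for every finite set `D` there is such a twist with `d ∉ D k²`. -/
theorem result : ∀ (k : Type) [Field k] [CharZero k] (X : Scheme.{0}) [IsIntegral X]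
    (f : X ⟶ Spec (CommRingCat.of k)) [LocallyOfFiniteType f] (a b : k) (m : ℕ),
    4 * a ^ 3 + 27 * b ^ 2 ≠ 0 → IsKummerPower k X f a b m →
    DensePoints k X f ∧
    (HilbertProperty k X f →
      ¬ Thin k {t : k | t ^ 3 + a * t + b ≠ 0 ∧
        ∃ P : Fin (m + 1) → (curve (a * (t ^ 3 + a * t + b) ^ 2)
          (b * (t ^ 3 + a * t + b) ^ 3)).Point, LinearIndependent ℤ P} ∧
      ∀ D : Finset k, ∃ d : k, d ≠ 0 ∧ (∀ δ ∈ D, ∀ c : k, d ≠ δ * c ^ 2) ∧
        ∃ P : Fin (m + 1) → (curve (a * d ^ 2) (b * d ^ 3)).Point, LinearIndependent ℤ P) := by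
  intro k _ _ X _ f _ a b m hd hX
  let A0 : Algebra k X.functionField := (toFF k X f).toAlgebra
  obtain ⟨x, z, hx, hz, htop⟩ := hX
  have hchar : CharZero X.functionField :=
    charZero_of_injective_algebraMap (algebraMap k X.functionField).injective
  have hz' : ∀ i, z i ^ 2 = Helper97.HR.fv (algebraMap k X.functionField a)
      (algebraMap k X.functionField b) (x 0) *
      Helper97.HR.fv (algebraMap k X.functionField a) (algebraMap k X.functionField b)
        (x i.succ) := hz
  have hd' : Helper97.HR.dsc a b ≠ 0 := hd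
  refine ⟨Helper97.HR.dense_of_dpf f (RingEquiv.refl _) (fun _ => rfl)
    (Helper97.HR.kummer_dense hd' hx hz' htop), fun hHP => ?_⟩
  have hHPF : Helper97.HR.HPF k X.functionField :=
    Helper97.HR.hpf_of_hp f hHP (RingEquiv.refl _) (fun _ => rfl)
  obtain ⟨ht, _⟩ := Helper97.HR.indep_succ hx
  have key := fun (q : ℕ) (H : Fin q → k[X][X]) hH =>
    Helper97.HR.kummer_rank hd' hx hz' htop hHPF q H hH
  have hev : ∀ t : k, (Helper97.HR.GG a b).eval t = t ^ 3 + a * t + b := by
    intro t
    unfold Helper97.HR.GG
    simp only [eval_add, eval_mul, eval_pow, eval_X, eval_C]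
  constructor
  · rintro ⟨q, H, hH, hZ⟩
    obtain ⟨l, hl, hF⟩ := Helper97.HR.rat_embed ht
    obtain ⟨t₀, h1, h2, h3⟩ := key q H (fun j r hr h0 => by
      rw [← hF] at hr
      obtain ⟨r', rfl⟩ := hr
      apply hH j r'
      apply l.injective
      rw [map_zero, ← h0, Polynomial.hom_eval₂]
      congr 1
      ext p
      · exact hl (C p)
      · exact hl Polynomial.X)
    rw [hev] at h1 h3
    obtain ⟨j, c, hc⟩ := hZ t₀ ⟨h1, h3⟩
    exact h2 j c hc
  · intro D
    obtain ⟨t₀, h1, h2, h3⟩ := key D.card
      (fun j => C (C ((D.equivFin.symm j : D) : k)) * Polynomial.X ^ 2 - C (Helper97.HR.GG a b))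
      (fun j => Helper97.HR.no_root_sq ht _)
    refine ⟨(Helper97.HR.GG a b).eval t₀, h1, fun δ hδ c hc => ?_, h3⟩
    apply h2 (D.equivFin ⟨δ, hδ⟩) c
    rw [Equiv.symm_apply_apply]
    simp only [Polynomial.map_sub, Polynomial.map_mul, Polynomial.map_pow, Polynomial.map_X,
      Polynomial.map_C, coe_evalRingHom, eval_C, eval_sub, eval_mul, eval_pow, eval_X]
    rw [← hc, sub_self]

end Pool.Agent.Results.MP_87f965_ag.KummerTwistRanks
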